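import Pool.Agent.W275.UB.Den

/-!
# UB-UREL: `ℚ(X_ι)` is relatively algebraically closed in the ultrapower
-/

set_option autoImplicit false

namespace Pool.Agent.W410.UB.Urel

open MvPolynomial Pool.Agent.W275.UB

section

variable {ι : Type}

/-- the generic coefficients in the ultrapower -/
noncomputable def psi (U : Ultrafilter (ι → ℤ)) :
    MvPolynomial ι ℤ →+* (U : Filter (ι → ℤ)).Germ ℚ :=
  (Filter.Germ.coeRingHom (U : Filter (ι → ℤ))).comp
    (RingHom.pi fun v => (Int.castRingHom ℚ).comp (eval v))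

theorem psi_apply (U : Ultrafilter (ι → ℤ)) (c : MvPolynomial ι ℤ) :
    psi U c = ((fun v => ((eval v c : ℤ) : ℚ) : (ι → ℤ) → ℚ) : (U : Filter (ι → ℤ)).Germ ℚ) := rfl

theorem eval₂_psi (U : Ultrafilter (ι → ℤ)) (G : Polynomial (MvPolynomial ι ℤ))
    (T : (ι → ℤ) → ℚ) :
    G.eval₂ (psi U) (T : (U : Filter (ι → ℤ)).Germ ℚ) =
      ((fun v => (G.map ((Int.castRingHom ℚ).comp (eval v))).eval (T v) : (ι → ℤ) → ℚ) :
        (U : Filter (ι → ℤ)).Germ ℚ) := by
  unfold psi
  rw [show (T : (U : Filter (ι → ℤ)).Germ ℚ) = Filter.Germ.coeRingHom (U : Filter (ι → ℤ)) T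
    from rfl, ← Polynomial.hom_eval₂]
  rw [Filter.Germ.coe_coeRingHom]
  congr 1
  funext v
  have := Polynomial.hom_eval₂ G (RingHom.pi fun v : ι → ℤ => (Int.castRingHom ℚ).comp (eval v))
    (Pi.evalRingHom (fun _ : ι → ℤ => ℚ) v) T
  rw [Pi.evalRingHom_apply, Pi.evalRingHom_apply] at this
  rw [this, Polynomial.eval_map]
  rfl

variable [Fintype ι]

theorem UD_mono {ε : ℝ} {S S' : Set (ι → ℤ)} (h : S ⊆ S') (h' : UD ε S') : UD ε S := by
  obtain ⟨H₀, hH⟩ := h'
  refine ⟨H₀, fun H hH0 => le_trans ?_ (hH H hH0)⟩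
  have hfin : ({v | v ∈ S' ∧ ∀ i, |v i| ≤ (H : ℤ)} : Set (ι → ℤ)).Finite := by
    refine (Set.Finite.pi' (fun _ : ι => Set.finite_Icc (-(H : ℤ)) (H : ℤ))).subset ?_
    rintro v ⟨-, hv⟩
    exact fun i => abs_le.mp (hv i)
  have hsub : ({v | v ∈ S ∧ ∀ i, |v i| ≤ (H : ℤ)} : Set (ι → ℤ)) ⊆
      ({v | v ∈ S' ∧ ∀ i, |v i| ≤ (H : ℤ)} : Set (ι → ℤ)) := fun v hv => ⟨h hv.1, hv.2⟩
  exact_mod_cast Set.ncard_le_ncard hsub hfin

theorem ne_zero_ev (hd : S_dens) {U : Ultrafilter (ι → ℤ)} (hU : Gen U) {c : MvPolynomial ι ℤ}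
    (hc : c ≠ 0) : {v : ι → ℤ | eval v c = 0}ᶜ ∈ U := by
  refine hU _ fun ε hε => ?_
  obtain ⟨V, hV⟩ := hd ι c hc 2 Nat.prime_two ε hε
  refine UD_mono ?_ hV
  intro v hv
  have hv' : eval v c = 0 := hv
  show ((2 : ℕ) : ℤ) ^ (V + 1) ∣ eval v c
  rw [hv']
  exact dvd_zero _

theorem psi_inj (hd : S_dens) {U : Ultrafilter (ι → ℤ)} (hU : Gen U) :
    Function.Injective (psi U) := by
  rw [injective_iff_map_eq_zero]
  intro c hc
  by_contra hne
  have h1 := ne_zero_ev hd hU hne
  rw [psi_apply, ← Filter.Germ.coe_zero, Filter.Germ.coe_eq] at hc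
  have h2 : {v : ι → ℤ | eval v c = 0} ∈ U := by
    filter_upwards [hc] with v hv
    have : ((eval v c : ℤ) : ℚ) = 0 := hv
    exact_mod_cast this
  have h3 := Filter.inter_mem h1 h2
  rw [Set.compl_inter_self] at h3
  exact Filter.empty_notMem _ h3

end

/-- a monic polynomial over a domain of characteristic zero which is irreducible over the fraction
field satisfies a Bezout relation -/
theorem bezout {R : Type} [CommRing R] [IsDomain R] [CharZero R] (P : Polynomial R)
    (hirr : Irreducible (P.map (algebraMap R (FractionRing R)))) :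
    ∃ (A B : Polynomial R) (Δ : R), Δ ≠ 0 ∧
      A * P + B * Polynomial.derivative P = Polynomial.C Δ := by
  have : CharZero (FractionRing R) := IsFractionRing.charZero_of_isFractionRing R
  obtain ⟨a, b, hab⟩ := hirr.separable
  obtain ⟨r, hr, hra⟩ := IsLocalization.integerNormalization_spec (nonZeroDivisors R) a
  obtain ⟨s, hs, hsb⟩ := IsLocalization.integerNormalization_spec (nonZeroDivisors R) b
  refine ⟨Polynomial.C s * IsLocalization.integerNormalization (nonZeroDivisors R) a,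
    Polynomial.C r * IsLocalization.integerNormalization (nonZeroDivisors R) b, r * s,
    mul_ne_zero (nonZeroDivisors.ne_zero hr) (nonZeroDivisors.ne_zero hs), ?_⟩
  apply Polynomial.map_injective _ (IsFractionRing.injective R (FractionRing R))
  rw [Polynomial.map_add, Polynomial.map_mul, Polynomial.map_mul, Polynomial.map_mul,
    Polynomial.map_mul, hra, hsb, Polynomial.map_C, Polynomial.map_C, Polynomial.map_C,
    ← Polynomial.derivative_map]
  simp only [Algebra.smul_def, Polynomial.algebraMap_apply, map_mul]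
  rw [← mul_one (Polynomial.C _ * Polynomial.C _), ← hab]
  ring

theorem main : S_dens → S_hit → S_urel := by
  intro hd hh ι _ U hU T G hG hev
  classical
  let : Algebra (MvPolynomial ι ℤ) ((U : Filter (ι → ℤ)).Germ ℚ) := (psi U).toAlgebra
  have hinj : Function.Injective (algebraMap (MvPolynomial ι ℤ) ((U : Filter (ι → ℤ)).Germ ℚ)) :=
    psi_inj hd hU
  have : FaithfulSMul (MvPolynomial ι ℤ) ((U : Filter (ι → ℤ)).Germ ℚ) :=
    (faithfulSMul_iff_algebraMap_injective _ _).mpr hinj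
  let := FractionRing.liftAlgebra (MvPolynomial ι ℤ) ((U : Filter (ι → ℤ)).Germ ℚ)
  have := FractionRing.isScalarTower_liftAlgebra (MvPolynomial ι ℤ)
    ((U : Filter (ι → ℤ)).Germ ℚ)
  set t : (U : Filter (ι → ℤ)).Germ ℚ := (T : (U : Filter (ι → ℤ)).Germ ℚ) with ht
  have halg : IsAlgebraic (MvPolynomial ι ℤ) t := by
    refine ⟨G, hG, ?_⟩
    rw [Polynomial.aeval_def]
    refine (eval₂_psi U G T).trans ?_
    rw [← Filter.Germ.coe_zero, Filter.Germ.coe_eq]
    exact hev
  obtain ⟨b, hb, hint⟩ := halg.exists_integral_multiple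
  set P := minpoly (MvPolynomial ι ℤ) (b • t) with hP
  have hmon : P.Monic := minpoly.monic hint
  have hPK : minpoly (EE ι) (b • t) = P.map (algebraMap (MvPolynomial ι ℤ) (EE ι)) :=
    minpoly.isIntegrallyClosed_eq_field_fractions' (EE ι) hint
  have hintK : IsIntegral (EE ι) (b • t) := hint.tower_top
  have hirr : Irreducible (P.map (algebraMap (MvPolynomial ι ℤ) (EE ι))) := by
    rw [← hPK]
    exact minpoly.irreducible hintK
  -- the values
  have hbt : b • t = ((fun v => ((eval v b : ℤ) : ℚ) * T v : (ι → ℤ) → ℚ) :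
      (U : Filter (ι → ℤ)).Germ ℚ) := by
    rw [Algebra.smul_def]
    rfl
  have hroot : ∀ᶠ v in (U : Filter (ι → ℤ)),
      (P.map ((Int.castRingHom ℚ).comp (eval v))).eval (((eval v b : ℤ) : ℚ) * T v) = 0 := by
    have h1 : Polynomial.aeval (b • t) P = 0 := minpoly.aeval _ _
    rw [Polynomial.aeval_def, hbt] at h1
    have h2 := (eval₂_psi U P (fun v => ((eval v b : ℤ) : ℚ) * T v)).symm.trans h1
    rw [← Filter.Germ.coe_zero, Filter.Germ.coe_eq] at h2
    exact h2
  have hB : ∀ᶠ v in (U : Filter (ι → ℤ)), ∃ T' : ℤ, (P.map (eval v)).eval T' = 0 := by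
    filter_upwards [hroot] with v hv
    have hm : (P.map (eval v)).Monic := hmon.map _
    have h1 : Polynomial.aeval (((eval v b : ℤ) : ℚ) * T v) (P.map (eval v)) = 0 := by
      rw [Polynomial.aeval_def, Polynomial.eval₂_map]
      rw [Polynomial.eval_map] at hv
      exact hv
    obtain ⟨z, hz⟩ := isInteger_of_is_root_of_monic hm h1
    refine ⟨z, ?_⟩
    rw [← hz, Polynomial.aeval_algebraMap_apply, Polynomial.coe_aeval_eq_eval, eq_intCast] at h1
    exact_mod_cast h1
  -- the root over `ℚ[X]`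
  obtain ⟨A, B, Δ, hΔ, hAB⟩ := bezout P hirr
  obtain ⟨S, hS⟩ : ∃ S : MvPolynomial ι ℚ,
      (P.map (MvPolynomial.map (Int.castRingHom ℚ))).eval S = 0 := by
    by_contra hcon
    push Not at hcon
    have h1 := hU _ (hh ι P A B Δ hmon hΔ hAB hcon)
    have h3 := Filter.inter_mem h1 hB
    rw [show ({v : ι → ℤ | ∃ T : ℤ, (P.map (eval v)).eval T = 0}ᶜ ∩
      {v : ι → ℤ | ∃ T' : ℤ, (P.map (eval v)).eval T' = 0}) = ∅ from Set.compl_inter_self _] at h3
    exact Filter.empty_notMem _ h3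
  have : CharZero (EE ι) := IsFractionRing.charZero_of_isFractionRing (MvPolynomial ι ℤ)
  have hSK : ∃ x : EE ι, (P.map (algebraMap (MvPolynomial ι ℤ) (EE ι))).eval x = 0 := by
    let θ : MvPolynomial ι ℚ →+* EE ι := eval₂Hom (algebraMap ℚ (EE ι))
      (fun i => algebraMap (MvPolynomial ι ℤ) (EE ι) (X i))
    refine ⟨θ S, ?_⟩
    have h1 : θ.comp (MvPolynomial.map (Int.castRingHom ℚ)) =
        algebraMap (MvPolynomial ι ℤ) (EE ι) := by
      apply MvPolynomial.ringHom_ext
      · intro r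
        simp [θ]
      · intro i
        simp [θ]
    have h2 := congrArg θ hS
    rw [Polynomial.eval_map, Polynomial.hom_eval₂, h1, map_zero] at h2
    rw [Polynomial.eval_map]
    exact h2
  obtain ⟨x, hx⟩ := hSK
  have hdeg : P.natDegree = 1 := by
    have h1 := Polynomial.degree_eq_one_of_irreducible_of_root hirr hx
    rw [hmon.degree_map] at h1
    exact Polynomial.natDegree_eq_of_degree_eq_some h1
  -- conclusion
  refine ⟨-P.coeff 0, b, hb, ?_⟩
  filter_upwards [hroot] with v hv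
  have h1 : P = Polynomial.X + Polynomial.C (P.coeff 0) := hmon.eq_X_add_C hdeg
  rw [h1] at hv
  simp only [Polynomial.map_add, Polynomial.map_X, Polynomial.map_C, Polynomial.eval_add,
    Polynomial.eval_X, Polynomial.eval_C, RingHom.comp_apply] at hv
  rw [map_neg, Int.cast_neg]
  have h2 : (Int.castRingHom ℚ) (eval v (P.coeff 0)) = ((eval v (P.coeff 0) : ℤ) : ℚ) := rfl
  rw [h2] at hv
  linarith

end Pool.Agent.W410.UB.Urel
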